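import Pool.Agent.H81.ES.Net

/-!
# One level, tests (B)
-/

set_option autoImplicit false

namespace Pool.Agent.H81.ES

open Finset Pool.Agent.H18.MR Pool.Agent.H93.DE Pool.Agent.H6.N4D Pool.Agent.H93.ES
open Pool.Agent.H70.ES

attribute [local irreducible] rho

lemma ind_nn (p : Prop) : 0 ≤ Pool.Agent.H93.EB.ind p := by
  unfold Pool.Agent.H93.EB.ind
  split_ifs <;> norm_num

lemma ind_of {p : Prop} (h : p) : Pool.Agent.H93.EB.ind p = 1 := by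
  unfold Pool.Agent.H93.EB.ind
  rw [if_pos h]

lemma ind_le {p : Prop} {a : ℝ} (h0 : 0 ≤ a) (h : p → 1 ≤ a) : Pool.Agent.H93.EB.ind p ≤ a := by
  unfold Pool.Agent.H93.EB.ind
  split_ifs with hp
  · exact h hp
  · exact h0

/-- the frequencies of the net -/
noncomputable def bet (w j : ℕ) : ℝ := (j : ℝ) / ((10 ^ 4 * 2 ^ w : ℕ) : ℝ)

/-- the decoded label -/
noncomputable def dec (w : ℕ) (a : Fin ((2 ^ w) ^ 4)) (i : Fin 4) : ℝ :=
  ((finFunctionFinEquiv.symm a i : ℕ) : ℝ) / 2 ^ w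

/-- the test -/
noncomputable def XX (C₁ : ℝ) (w m : ℕ) (e : Fin (2 ^ rho w) → Fin (2 ^ (w - rho w))) (q : ℕ)
    (W : Fin (2 ^ m) → Fin (2 ^ rho w) → Bool) (S : Fin 4 → ℝ) (r : ℕ) : ℝ :=
  Pool.Agent.H93.EB.ind (∃ j < 10 ^ 4 * 2 ^ w, Far q w S C₁ (bet w j) ∧
    62 / 100 ≤ ‖smpW m (kB q r (bet w j)) e (2 ^ rho w) W‖)

/-- the mean of the samples -/
noncomputable def MM (f : ℕ → ℝ) (w m q r : ℕ) (β : ℝ) : ℂ :=
  (∑ t ∈ range (2 ^ w + 2 ^ m),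
    ((f t * wt m (2 ^ rho w * 2 ^ (w - rho w)) t : ℝ) : ℂ) * kB q r β t) / 2 ^ w

lemma rho_low (w : ℕ) : 2 ^ 29 * w ≤ 2 ^ rho w := by
  unfold rho
  have h1 : w < 2 ^ (Nat.log 2 w + 1) := Nat.lt_pow_succ_log_self (by norm_num) _
  have h2 : 2 ^ (Nat.log 2 w + 30) = 2 ^ 29 * 2 ^ (Nat.log 2 w + 1) := by
    rw [← pow_add]
    congr 1
    omega
  rw [h2]
  exact Nat.mul_le_mul_left _ h1.le

/-- the tail is tiny -/
lemma tiny (w : ℕ) : 4 * Real.exp (-((5 / 1000 : ℝ) ^ 2 * ((2 ^ rho w : ℕ) : ℝ) / 64)) ≤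
    4 * (1 / 2) ^ (100 * w) := by
  have h1 : ((2 ^ 29 * w : ℕ) : ℝ) ≤ ((2 ^ rho w : ℕ) : ℝ) := by exact_mod_cast rho_low w
  have h2 : -((5 / 1000 : ℝ) ^ 2 * ((2 ^ rho w : ℕ) : ℝ) / 64) ≤ ((100 * w : ℕ) : ℝ) * (-1) := by
    push_cast at h1 ⊢
    have : (0 : ℝ) ≤ w := Nat.cast_nonneg w
    linarith
  have h3 : Real.exp (-1) ≤ 1 / 2 := by
    have := Real.exp_neg_one_lt_d9
    linarith
  have h4 : Real.exp (-((5 / 1000 : ℝ) ^ 2 * ((2 ^ rho w : ℕ) : ℝ) / 64)) ≤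
      (1 / 2) ^ (100 * w) := by
    refine (Real.exp_le_exp.2 h2).trans ?_
    rw [Real.exp_nat_mul]
    exact pow_le_pow_left₀ (Real.exp_pos _).le h3 _
  linarith

lemma RD {w : ℕ} (hw : 10 ^ 5 ≤ w) : 2 ^ rho w * 2 ^ (w - rho w) = 2 ^ w := by
  rw [← pow_add]
  congr 1
  have := Pool.Agent.H95.ES.rho_le w hw
  omega

lemma small {w m : ℕ} (hw : 10 ^ 5 ≤ w) (hm : m < w / 200) :
    (6 : ℝ) * 2 ^ m / 2 ^ w ≤ 1 / 1000 := by
  rw [div_le_div_iff₀ (by positivity) (by norm_num)]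
  have h1 : (6000 : ℝ) * 2 ^ m ≤ 2 ^ w := by
    have h2 : (2 : ℝ) ^ w = 2 ^ 13 * 2 ^ m * 2 ^ (w - 13 - m) := by
      rw [← pow_add, ← pow_add]
      congr 1
      omega
    rw [h2]
    have h3 : (1 : ℝ) ≤ 2 ^ (w - 13 - m) := one_le_pow₀ (by norm_num)
    have h4 : (0 : ℝ) < 2 ^ m := by positivity
    have h5 : (6000 : ℝ) * 2 ^ m ≤ 2 ^ 13 * 2 ^ m := by
      refine mul_le_mul_of_nonneg_right (by norm_num) h4.le
    refine h5.trans (le_mul_of_one_le_right (by positivity) h3)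
  linarith

/-- the tail for one frequency -/
lemma tl (hT : T_HFT) {w m q r : ℕ} (hw : 10 ^ 5 ≤ w) (hq : q ∈ oct m) (f : ℕ → ℝ)
    (hf : ∀ t, |f t| ≤ 1) (β : ℝ) :
    avE (2 ^ rho w) (2 ^ (w - rho w)) (fun e => Pool.Agent.H93.EB.ind (5 / 1000 ≤
      ‖smp f m (kB q r β) e (2 ^ rho w) - MM f w m q r β‖)) ≤ 4 * (1 / 2) ^ (100 * w) :=
  (tail_smp hT f hf β (5 / 1000) (RD hw) (by positivity) (by positivity) hq
    (by norm_num)).trans (tiny w)

lemma mm {w m q r : ℕ} (hw : 10 ^ 5 ≤ w) (hm : m < w / 200) (hq : q ∈ oct m) (f : ℕ → ℝ)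
    (hf : ∀ t, |f t| ≤ 1) (β : ℝ) :
    ‖MM f w m q r β - wm f w (kB q r β)‖ ≤ 1 / 1000 :=
  (mean_wm f hf β (RD hw) hq (by omega)).trans (small hw hm)

/-- the true side -/
lemma true_side (hT : T_HFT) {w m q r : ℕ} (hw : 10 ^ 5 ≤ w) (hm : m < w / 200) (hq : q ∈ oct m)
    (f : ℕ → ℝ) (hf : ∀ t, |f t| ≤ 1) {S S' : Fin 4 → ℝ} {C₁ : ℝ}
    (hS : ∀ i, nd (S i - S' i) ≤ 1 / 2 ^ w) :
    Pool.Agent.H93.EB.ind (∃ β : ℝ, Far q w S (C₁ + 3) β ∧ 63 / 100 ≤ ‖wm f w (kB q r β)‖) ≤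
      2 * avE (2 ^ rho w) (2 ^ (w - rho w)) (fun e => Pool.Agent.H93.EB.ind
        (∃ j < 10 ^ 4 * 2 ^ w, Far q w S' C₁ (bet w j) ∧
          62 / 100 ≤ ‖smp f m (kB q r (bet w j)) e (2 ^ rho w)‖)) := by
  obtain ⟨hq1, hq2, hq3⟩ := mem_oct hq
  refine ind_le (mul_nonneg (by norm_num) (avE_nonneg fun e => ind_nn _)) ?_
  rintro ⟨β, hβ1, hβ2⟩
  obtain ⟨j, z, δ, hj, hjz, h0, h1⟩ := rndM (10 ^ 4 * 2 ^ w) (by positivity) β
  have h1' : δ ≤ 1 / (10 ^ 4 * 2 ^ w) := by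
    refine h1.trans (le_of_eq ?_)
    push_cast
    norm_num
  have hqw : q ≤ 2 ^ w := hq2.trans (Nat.pow_le_pow_right (by norm_num) (by omega))
  have h2 := wm_rnd (r := r) f hf hq3.pos hqw hjz h0 h1'
  have h3 : δ ≤ 1 / 2 ^ w := by
    refine h1'.trans (one_div_le_one_div_of_le (by positivity) ?_)
    exact le_mul_of_one_le_left (by positivity) (by norm_num)
  have h4 := far_rnd hS hjz h0 h3 hβ1
  have h5 := mm hw hm hq f hf (r := r) (bet w j)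
  have h6 := tl hT hw hq f hf (r := r) (bet w j)
  have h7 : ((j : ℝ) / ((10 ^ 4 * 2 ^ w : ℕ) : ℝ)) = bet w j := rfl
  rw [h7] at h2 h4
  have h8 : ∀ e : Fin (2 ^ rho w) → Fin (2 ^ (w - rho w)), (1 : ℝ) ≤
      Pool.Agent.H93.EB.ind (∃ j < 10 ^ 4 * 2 ^ w, Far q w S' C₁ (bet w j) ∧
          62 / 100 ≤ ‖smp f m (kB q r (bet w j)) e (2 ^ rho w)‖) +
      Pool.Agent.H93.EB.ind (5 / 1000 ≤
        ‖smp f m (kB q r (bet w j)) e (2 ^ rho w) - MM f w m q r (bet w j)‖) := by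
    intro e
    by_cases h9 : 5 / 1000 ≤
        ‖smp f m (kB q r (bet w j)) e (2 ^ rho w) - MM f w m q r (bet w j)‖
    · rw [ind_of h9]
      have := ind_nn (∃ j < 10 ^ 4 * 2 ^ w, Far q w S' C₁ (bet w j) ∧
          62 / 100 ≤ ‖smp f m (kB q r (bet w j)) e (2 ^ rho w)‖)
      linarith
    · push Not at h9
      have h10 : 62 / 100 ≤ ‖smp f m (kB q r (bet w j)) e (2 ^ rho w)‖ := by
        have a1 := norm_sub_norm_le (wm f w (kB q r (bet w j))) (MM f w m q r (bet w j))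
        have a2 := norm_sub_norm_le (MM f w m q r (bet w j))
          (smp f m (kB q r (bet w j)) e (2 ^ rho w))
        rw [norm_sub_rev] at a1 a2
        linarith
      rw [ind_of ⟨j, hj, h4, h10⟩]
      have := ind_nn (5 / 1000 ≤
        ‖smp f m (kB q r (bet w j)) e (2 ^ rho w) - MM f w m q r (bet w j)‖)
      linarith
  have h11 := avE_mono h8
  rw [avE_const (by positivity), avE_add] at h11
  have h12 : (4 : ℝ) * (1 / 2) ^ (100 * w) ≤ 1 / 2 := by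
    have : ((1 : ℝ) / 2) ^ (100 * w) ≤ (1 / 2) ^ 3 :=
      pow_le_pow_of_le_one (by norm_num) (by norm_num) (by omega)
    linarith
  linarith

/-- the decoupled side, one residue -/
lemma dec_one (hT : T_HFT) {w m q r : ℕ} (hw : 10 ^ 5 ≤ w) (hm : m < w / 200) (hq : q ∈ oct m)
    (f : ℕ → ℝ) (hf : ∀ t, |f t| ≤ 1) (S : Fin 4 → ℝ) (C₁ : ℝ) :
    avE (2 ^ rho w) (2 ^ (w - rho w)) (fun e => Pool.Agent.H93.EB.ind
        (∃ j < 10 ^ 4 * 2 ^ w, Far q w S C₁ (bet w j) ∧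
          62 / 100 ≤ ‖smp f m (kB q r (bet w j)) e (2 ^ rho w)‖)) ≤
      Pool.Agent.H93.EB.ind (∃ β : ℝ, Far q w S C₁ β ∧ 61 / 100 ≤ ‖wm f w (kB q r β)‖) +
        (10 ^ 4 * 2 ^ w) * (4 * (1 / 2) ^ (100 * w)) := by
  have h1 : ∀ e : Fin (2 ^ rho w) → Fin (2 ^ (w - rho w)), Pool.Agent.H93.EB.ind
        (∃ j < 10 ^ 4 * 2 ^ w, Far q w S C₁ (bet w j) ∧
          62 / 100 ≤ ‖smp f m (kB q r (bet w j)) e (2 ^ rho w)‖) ≤
      Pool.Agent.H93.EB.ind (∃ β : ℝ, Far q w S C₁ β ∧ 61 / 100 ≤ ‖wm f w (kB q r β)‖) +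
      ∑ j ∈ range (10 ^ 4 * 2 ^ w), Pool.Agent.H93.EB.ind (5 / 1000 ≤
        ‖smp f m (kB q r (bet w j)) e (2 ^ rho w) - MM f w m q r (bet w j)‖) := by
    intro e
    have hs : ∀ s : Finset ℕ, 0 ≤ ∑ j ∈ s, Pool.Agent.H93.EB.ind (5 / 1000 ≤
        ‖smp f m (kB q r (bet w j)) e (2 ^ rho w) - MM f w m q r (bet w j)‖) :=
      fun s => sum_nonneg fun j _ => ind_nn _
    refine ind_le (add_nonneg (ind_nn _) (hs _)) ?_
    rintro ⟨j, hj, hj1, hj2⟩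
    by_cases h9 : 5 / 1000 ≤
        ‖smp f m (kB q r (bet w j)) e (2 ^ rho w) - MM f w m q r (bet w j)‖
    · have h2 := single_le_sum (f := fun j => Pool.Agent.H93.EB.ind (5 / 1000 ≤
        ‖smp f m (kB q r (bet w j)) e (2 ^ rho w) - MM f w m q r (bet w j)‖))
        (fun j _ => ind_nn _) (mem_range.2 hj)
      rw [ind_of h9] at h2
      have := ind_nn (∃ β : ℝ, Far q w S C₁ β ∧ 61 / 100 ≤ ‖wm f w (kB q r β)‖)
      linarith
    · push Not at h9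
      have h5 := mm hw hm hq f hf (r := r) (bet w j)
      have h10 : 61 / 100 ≤ ‖wm f w (kB q r (bet w j))‖ := by
        have a1 := norm_sub_norm_le (MM f w m q r (bet w j)) (wm f w (kB q r (bet w j)))
        have a2 := norm_sub_norm_le (smp f m (kB q r (bet w j)) e (2 ^ rho w))
          (MM f w m q r (bet w j))
        linarith
      rw [ind_of ⟨bet w j, hj1, h10⟩]
      have := hs (range (10 ^ 4 * 2 ^ w))
      linarith
  have h2 := avE_mono h1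
  rw [avE_add, avE_const (by positivity), avE_sum (range (10 ^ 4 * 2 ^ w)) (fun j e =>
    Pool.Agent.H93.EB.ind (5 / 1000 ≤
        ‖smp f m (kB q r (bet w j)) e (2 ^ rho w) - MM f w m q r (bet w j)‖))] at h2
  have h3 := sum_le_sum fun j (_ : j ∈ range (10 ^ 4 * 2 ^ w)) =>
    tl hT hw hq f hf (r := r) (bet w j)
  rw [sum_const, card_range, nsmul_eq_mul] at h3
  push_cast at h3
  linarith

/-- the decoupled side, one octave -/
lemma dec_oct (hT : T_HFT) {w m : ℕ} (hw : 10 ^ 5 ≤ w) (hm : m < w / 200)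
    (f : ℕ → ℝ) (hf : ∀ t, |f t| ≤ 1) (S : Fin 4 → ℝ) (C₁ : ℝ)
    (hdet : ∑ q ∈ oct m, (∑ r ∈ range q, Pool.Agent.H93.EB.ind (∃ β : ℝ, Far q w S C₁ β ∧
      61 / 100 ≤ ‖wm f w (kB q r β)‖)) / q ≤ (1 / 2) ^ (m / 8) * (oct m).card) :
    ∑ q ∈ oct m, (∑ r ∈ range q, avE (2 ^ rho w) (2 ^ (w - rho w)) (fun e =>
      Pool.Agent.H93.EB.ind (∃ j < 10 ^ 4 * 2 ^ w, Far q w S C₁ (bet w j) ∧
        62 / 100 ≤ ‖smp f m (kB q r (bet w j)) e (2 ^ rho w)‖))) / q ≤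
      2 * (1 / 2) ^ (m / 8) * (oct m).card := by
  have ht : (10 ^ 4 * 2 ^ w) * (4 * (1 / 2) ^ (100 * w)) ≤ ((1 : ℝ) / 2) ^ (m / 8) := by
    have e1 : ((1 : ℝ) / 2) ^ (100 * w) = (1 / 2) ^ w * ((1 / 2) ^ w * (1 / 2) ^ (98 * w)) := by
      rw [← pow_add, ← pow_add]
      congr 1
      ring
    have e2 : (2 : ℝ) ^ w * (1 / 2) ^ w = 1 := by
      rw [← mul_pow]
      norm_num
    have e3 : (10 ^ 4 * 2 ^ w) * (4 * (1 / 2) ^ (100 * w)) =
        (4 * 10 ^ 4 * ((1 : ℝ) / 2) ^ (98 * w)) * (1 / 2) ^ w := by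
      rw [e1]
      calc (10 ^ 4 * 2 ^ w) * (4 * ((1 / 2) ^ w * ((1 / 2) ^ w * (1 / 2) ^ (98 * w)))) =
            (4 * 10 ^ 4 * ((1 : ℝ) / 2) ^ (98 * w)) * (1 / 2) ^ w * (2 ^ w * (1 / 2) ^ w) := by
            ring
        _ = _ := by rw [e2, mul_one]
    rw [e3]
    have e4 : ((1 : ℝ) / 2) ^ (98 * w) ≤ (1 / 2) ^ 20 :=
      pow_le_pow_of_le_one (by norm_num) (by norm_num) (by omega)
    have e5 : 4 * 10 ^ 4 * ((1 : ℝ) / 2) ^ (98 * w) ≤ 1 := by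
      have : (4 : ℝ) * 10 ^ 4 * (1 / 2) ^ 20 ≤ 1 := by norm_num
      linarith
    have e6 : ((1 : ℝ) / 2) ^ w ≤ (1 / 2) ^ (m / 8) :=
      pow_le_pow_of_le_one (by norm_num) (by norm_num) (by omega)
    refine le_trans ?_ e6
    exact mul_le_of_le_one_left (by positivity) e5
  have h1 : ∀ q ∈ oct m, (∑ r ∈ range q, avE (2 ^ rho w) (2 ^ (w - rho w)) (fun e =>
      Pool.Agent.H93.EB.ind (∃ j < 10 ^ 4 * 2 ^ w, Far q w S C₁ (bet w j) ∧
        62 / 100 ≤ ‖smp f m (kB q r (bet w j)) e (2 ^ rho w)‖))) / (q : ℝ) ≤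
      (∑ r ∈ range q, Pool.Agent.H93.EB.ind (∃ β : ℝ, Far q w S C₁ β ∧
        61 / 100 ≤ ‖wm f w (kB q r β)‖)) / q + (1 / 2) ^ (m / 8) := by
    intro q hq
    obtain ⟨hq1, hq2, hq3⟩ := mem_oct hq
    have hq0 : (0 : ℝ) < q := by exact_mod_cast hq3.pos
    have h2 := sum_le_sum fun r (_ : r ∈ range q) => dec_one hT hw hm hq f hf S C₁ (r := r)
    rw [sum_add_distrib, sum_const, card_range, nsmul_eq_mul] at h2
    rw [div_le_iff₀ hq0, add_mul, div_mul_cancel₀ _ hq0.ne']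
    refine h2.trans ?_
    have h3 := mul_le_mul_of_nonneg_left ht hq0.le
    linarith
  refine (sum_le_sum h1).trans ?_
  rw [sum_add_distrib, sum_const, nsmul_eq_mul]
  linarith

lemma exp_ind {p : Prop} {κ : ℝ} : Real.exp (κ * Pool.Agent.H93.EB.ind p) ≤
    1 + Real.exp κ * Pool.Agent.H93.EB.ind p := by
  unfold Pool.Agent.H93.EB.ind
  split_ifs
  · rw [mul_one, mul_one]
    linarith
  · rw [mul_zero, Real.exp_zero, mul_zero, add_zero]

/-- one octave -/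
lemma oct_B (hO : T_DVO) (hT : T_HFT) {w m : ℕ} (hw : 10 ^ 5 ≤ w) (hm : m < w / 200)
    {C₁ κ : ℝ} (hκ : 0 < κ) (N : ℕ) [NeZero N] (x : ZMod N → Bool) (S : ZMod N → Fin 4 → ℝ)
    (l : ZMod N → Fin ((2 ^ w) ^ 4)) (hl : ∀ n i, nd (S n i - dec w (l n) i) ≤ 1 / 2 ^ w)
    (hN : primorial (2 ^ (m + 1)) ∣ N)
    (hdet : ∀ n, ∑ q ∈ oct m, (∑ r ∈ range q, Pool.Agent.H93.EB.ind (∃ β : ℝ,
      Far q w (dec w (l n)) C₁ β ∧ 61 / 100 ≤ ‖wm (ltr x n) w (kB q r β)‖)) / (q : ℝ) ≤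
        (1 / 2) ^ (m / 8) * (oct m).card) :
    avZ (fun n => ∑ q ∈ oct m, Pool.Agent.H93.EB.ind (∃ β : ℝ, Far q w (S n) (C₁ + 3) β ∧
      63 / 100 ≤ ‖wm (ltr x n) w (kB q n.val β)‖)) ≤
    2 / κ * (avE (2 ^ rho w) (2 ^ (w - rho w)) (fun e =>
      info (tup x (pos e)) (2 ^ m) (primorial (2 ^ m)) (pr m)) + 4 * w * Real.log 2 +
      Real.exp κ * (2 * (1 / 2) ^ (m / 8) * (oct m).card)) := by
  have hD : 0 < 2 ^ (w - rho w) := by positivity
  have hE := Real.exp_pos κ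
  -- the inequality of Donsker and Varadhan
  have hdvo : ∀ e : Fin (2 ^ rho w) → Fin (2 ^ (w - rho w)),
      avZ (fun n => ∑ q ∈ oct m, κ * XX C₁ w m e q (wd (tup x (pos e)) (2 ^ m) n) (dec w (l n))
        (n.val % q)) ≤
      info (tup x (pos e)) (2 ^ m) (primorial (2 ^ m)) (pr m) + 4 * w * Real.log 2 +
        avZ (fun n => ∑ q ∈ oct m, Real.exp κ * ((∑ r ∈ range q,
          XX C₁ w m e q (wd (tup x (pos e)) (2 ^ m) n) (dec w (l n)) r) / q)) := by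
    intro e
    have h1 := hO N (2 ^ rho w) m ((2 ^ w) ^ 4) x (pos e) l
      (fun q W lab r => κ * XX C₁ w m e q W (dec w lab) r) hN
    have h2 : Real.log (((2 ^ w) ^ 4 : ℕ) : ℝ) = 4 * w * Real.log 2 := by
      push_cast
      rw [Real.log_pow, Real.log_pow]
      push_cast
      ring
    rw [h2] at h1
    refine h1.trans ?_
    have h3 : avZ (fun n => ∑ q ∈ oct m, Real.log ((∑ r ∈ range q,
        Real.exp (κ * XX C₁ w m e q (wd (tup x (pos e)) (2 ^ m) n) (dec w (l n)) r)) / q)) ≤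
        avZ (fun n => ∑ q ∈ oct m, Real.exp κ * ((∑ r ∈ range q,
          XX C₁ w m e q (wd (tup x (pos e)) (2 ^ m) n) (dec w (l n)) r) / q)) := by
      refine avZ_mono fun n => sum_le_sum fun q hq => ?_
      have hq0 : (0 : ℝ) < q := by exact_mod_cast (mem_oct hq).2.2.pos
      obtain ⟨X, hX⟩ : ∃ X : ℕ → ℝ, X = fun r =>
        XX C₁ w m e q (wd (tup x (pos e)) (2 ^ m) n) (dec w (l n)) r := ⟨_, rfl⟩
      have hX0 : ∀ r, 0 ≤ X r := by
        intro r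
        rw [hX]
        exact ind_nn _
      have hX1 : ∀ r, Real.exp (κ * X r) ≤ 1 + Real.exp κ * X r := by
        intro r
        rw [hX]
        exact exp_ind
      have h4 : (∑ r ∈ range q, Real.exp (κ * X r)) / q ≤
          1 + Real.exp κ * ((∑ r ∈ range q, X r) / q) := by
        rw [div_le_iff₀ hq0]
        refine (sum_le_sum fun r _ => hX1 r).trans (le_of_eq ?_)
        rw [sum_add_distrib, ← mul_sum, sum_const, card_range, nsmul_eq_mul, mul_one]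
        field_simp
      have h5 : 0 < (∑ r ∈ range q, Real.exp (κ * X r)) / q := by
        refine div_pos (sum_pos (fun r _ => Real.exp_pos _) ⟨0, mem_range.2 ?_⟩) hq0
        exact (mem_oct hq).2.2.pos
      have h6 := Real.log_le_sub_one_of_pos h5
      rw [hX] at h4 h6
      linarith
    linarith
  have h1 := avE_mono hdvo
  rw [avE_add, avE_add, avE_const hD, ← avZ_avE (fun n e => ∑ q ∈ oct m, κ *
    XX C₁ w m e q (wd (tup x (pos e)) (2 ^ m) n) (dec w (l n)) (n.val % q)),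
    ← avZ_avE (fun n e => ∑ q ∈ oct m, Real.exp κ * ((∑ r ∈ range q,
          XX C₁ w m e q (wd (tup x (pos e)) (2 ^ m) n) (dec w (l n)) r) / q))] at h1
  -- the test as an event for the samples
  have hXX : ∀ (n : ZMod N) (q r : ℕ) (e : Fin (2 ^ rho w) → Fin (2 ^ (w - rho w))),
      XX C₁ w m e q (wd (tup x (pos e)) (2 ^ m) n) (dec w (l n)) r =
      Pool.Agent.H93.EB.ind (∃ j < 10 ^ 4 * 2 ^ w, Far q w (dec w (l n)) C₁ (bet w j) ∧
        62 / 100 ≤ ‖smp (ltr x n) m (kB q r (bet w j)) e (2 ^ rho w)‖) := by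
    intro n q r e
    unfold XX
    congr 1
    simp only [smp_eq]
  have h2 : avZ (fun n => avE (2 ^ rho w) (2 ^ (w - rho w)) (fun e => ∑ q ∈ oct m,
      Real.exp κ * ((∑ r ∈ range q,
          XX C₁ w m e q (wd (tup x (pos e)) (2 ^ m) n) (dec w (l n)) r) / q))) ≤
      Real.exp κ * (2 * (1 / 2) ^ (m / 8) * (oct m).card) := by
    have h3 : ∀ n : ZMod N, avE (2 ^ rho w) (2 ^ (w - rho w)) (fun e => ∑ q ∈ oct m,
      Real.exp κ * ((∑ r ∈ range q,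
          XX C₁ w m e q (wd (tup x (pos e)) (2 ^ m) n) (dec w (l n)) r) / q)) ≤
        Real.exp κ * (2 * (1 / 2) ^ (m / 8) * (oct m).card) := by
      intro n
      rw [avE_sum (oct m) (fun q e => Real.exp κ * ((∑ r ∈ range q,
          XX C₁ w m e q (wd (tup x (pos e)) (2 ^ m) n) (dec w (l n)) r) / q))]
      have h4 : ∀ q ∈ oct m, avE (2 ^ rho w) (2 ^ (w - rho w)) (fun e =>
          Real.exp κ * ((∑ r ∈ range q,
          XX C₁ w m e q (wd (tup x (pos e)) (2 ^ m) n) (dec w (l n)) r) / q)) =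
          Real.exp κ * ((∑ r ∈ range q, avE (2 ^ rho w) (2 ^ (w - rho w)) (fun e =>
            Pool.Agent.H93.EB.ind (∃ j < 10 ^ 4 * 2 ^ w, Far q w (dec w (l n)) C₁ (bet w j) ∧
        62 / 100 ≤ ‖smp (ltr x n) m (kB q r (bet w j)) e (2 ^ rho w)‖))) / q) := by
        intro q _
        rw [avE_mul, avE_div, avE_sum (range q) (fun r e =>
          XX C₁ w m e q (wd (tup x (pos e)) (2 ^ m) n) (dec w (l n)) r)]
        congr 2
        refine sum_congr rfl fun r _ => ?_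
        congr 1
        funext e
        exact hXX n q r e
      rw [sum_congr rfl h4, ← mul_sum]
      exact mul_le_mul_of_nonneg_left
        (dec_oct hT hw hm (ltr x n) (abs_ltr x n) (dec w (l n)) C₁ (hdet n)) hE.le
    refine (avZ_mono h3).trans (le_of_eq ?_)
    rw [avZ_const]
  have h5 : avZ (fun n => ∑ q ∈ oct m, Pool.Agent.H93.EB.ind (∃ β : ℝ,
      Far q w (S n) (C₁ + 3) β ∧ 63 / 100 ≤ ‖wm (ltr x n) w (kB q n.val β)‖)) ≤
      2 / κ * avZ (fun n => avE (2 ^ rho w) (2 ^ (w - rho w)) (fun e => ∑ q ∈ oct m, κ *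
        XX C₁ w m e q (wd (tup x (pos e)) (2 ^ m) n) (dec w (l n)) (n.val % q))) := by
    rw [← avZ_mul]
    refine avZ_mono fun n => ?_
    rw [avE_sum (oct m) (fun q e => κ *
        XX C₁ w m e q (wd (tup x (pos e)) (2 ^ m) n) (dec w (l n)) (n.val % q)), mul_sum]
    refine sum_le_sum fun q hq => ?_
    rw [avE_mul, ← mul_assoc, div_mul_cancel₀ _ hκ.ne']
    have h6 := true_side hT hw hm hq (ltr x n) (abs_ltr x n) (S := S n) (S' := dec w (l n))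
      (C₁ := C₁) (r := n.val) (hl n)
    have h7 : (fun e => XX C₁ w m e q (wd (tup x (pos e)) (2 ^ m) n) (dec w (l n)) (n.val % q)) =
        fun e : Fin (2 ^ rho w) → Fin (2 ^ (w - rho w)) => Pool.Agent.H93.EB.ind
        (∃ j < 10 ^ 4 * 2 ^ w, Far q w (dec w (l n)) C₁ (bet w j) ∧
          62 / 100 ≤ ‖smp (ltr x n) m (kB q n.val (bet w j)) e (2 ^ rho w)‖) := by
      funext e
      rw [hXX]
      simp only [kB_mod]
    rw [h7]
    exact h6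
  refine h5.trans (mul_le_mul_of_nonneg_left ?_ (by positivity))
  linarith

end Pool.Agent.H81.ES
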