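import Pool.Agent.H70.ES.LVA
import Pool.Agent.H95.ES.MEA

/-!
# One level, tests (B): kernels, nets and samples
-/

set_option autoImplicit false

namespace Pool.Agent.H81.ES

open Finset Pool.Agent.H18.MR Pool.Agent.H93.DE Pool.Agent.H6.N4D Pool.Agent.H93.ES
open Pool.Agent.H70.ES

attribute [local irreducible] rho

/-- rounding to a multiple of `1 / M` -/
lemma rndM (M : ℕ) (hM : 0 < M) (a : ℝ) : ∃ (j : ℕ) (z : ℤ) (δ : ℝ), j < M ∧
    a = z + (j : ℝ) / M + δ ∧ 0 ≤ δ ∧ δ ≤ 1 / M := by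
  have h2 : (0 : ℝ) < M := by exact_mod_cast hM
  have h0 := Int.fract_nonneg a
  have h1 := Int.fract_lt_one a
  have h3 : 0 ≤ Int.fract a * M := by positivity
  have h4 : ⌊Int.fract a * M⌋₊ < M := by
    rw [Nat.floor_lt h3]
    nlinarith
  refine ⟨⌊Int.fract a * M⌋₊, ⌊a⌋, Int.fract a - ⌊Int.fract a * M⌋₊ / M, h4, ?_, ?_, ?_⟩
  · have := Int.floor_add_fract a
    linarith
  · have h5 := Nat.floor_le h3
    rw [sub_nonneg, div_le_iff₀ h2]
    exact h5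
  · have h5 := Nat.lt_floor_add_one (Int.fract a * M)
    rw [sub_le_iff_le_add, ← add_div, le_div_iff₀ h2]
    linarith

lemma one_mult {q r a L : ℕ} (hL : L ≤ q) :
    ((Ico a (a + L)).filter (fun t => q ∣ r + t)).card ≤ 1 := by
  rw [Finset.card_le_one]
  intro s hs t ht
  rw [mem_filter, mem_Ico] at hs ht
  obtain ⟨⟨h1, h2⟩, h3⟩ := hs
  obtain ⟨⟨h4, h5⟩, h6⟩ := ht
  rcases le_total s t with h | h
  · have h7 := Nat.dvd_sub h6 h3
    have h8 : r + t - (r + s) = t - s := by omega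
    rw [h8] at h7
    have := Nat.eq_zero_of_dvd_of_lt h7 (by omega)
    omega
  · have h7 := Nat.dvd_sub h3 h6
    have h8 : r + s - (r + t) = s - t := by omega
    rw [h8] at h7
    have := Nat.eq_zero_of_dvd_of_lt h7 (by omega)
    omega

lemma norm_kB (q r t : ℕ) (β : ℝ) : ‖kB q r β t‖ = if q ∣ r + t then (q : ℝ) else 0 := by
  unfold kB
  rw [norm_mul, norm_ee, mul_one]
  split_ifs
  · simp
  · simp

lemma sum_short {q r a L : ℕ} (hL : L ≤ q) (β : ℝ) :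
    ∑ t ∈ Ico a (a + L), ‖kB q r β t‖ ≤ q := by
  rw [sum_congr rfl fun t _ => norm_kB q r t β, ← sum_filter, sum_const, nsmul_eq_mul]
  have h1 := one_mult (q := q) (r := r) (a := a) hL
  have h2 : ((((Ico a (a + L)).filter (fun t => q ∣ r + t)).card : ℕ) : ℝ) ≤ 1 := by
    exact_mod_cast h1
  have h3 : (0 : ℝ) ≤ q := Nat.cast_nonneg q
  nlinarith

lemma sum_long {q : ℕ} (hq : 0 < q) (r : ℕ) (β : ℝ) (L : ℕ) : ∀ a : ℕ,
    ∑ t ∈ Ico a (a + L), ‖kB q r β t‖ ≤ L + q := by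
  induction L using Nat.strong_induction_on with
  | _ L ih =>
    intro a
    by_cases h : L ≤ q
    · have h1 := sum_short (r := r) (a := a) h β
      have : (0 : ℝ) ≤ L := Nat.cast_nonneg L
      linarith
    · have h2 : L - q < L := by omega
      have h3 := ih (L - q) h2 (a + q)
      have h4 : a + q + (L - q) = a + L := by omega
      rw [h4] at h3
      have h5 := sum_short (r := r) (a := a) (le_refl q) β
      rw [← sum_Ico_consecutive _ (show a ≤ a + q by omega) (show a + q ≤ a + L by omega)]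
      have h6 : ((L - q : ℕ) : ℝ) = L - q := by
        rw [Nat.cast_sub (by omega)]
      rw [h6] at h3
      linarith

lemma sum_rng {q : ℕ} (hq : 0 < q) (r : ℕ) (β : ℝ) (L : ℕ) :
    ∑ t ∈ range L, ‖kB q r β t‖ ≤ L + q := by
  have := sum_long hq r β L 0
  rw [zero_add] at this
  rw [range_eq_Ico]
  exact this

/-- change of the frequency -/
lemma kB_rnd {q r : ℕ} {a b δ : ℝ} {z : ℤ} (h : a = z + b + δ) (t : ℕ) :
    kB q r a t = kB q r b t * ee (-(δ * t)) := by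
  unfold kB
  have h1 : -(a * t) = ((-(z * t) : ℤ) : ℝ) + (-(b * t) + -(δ * t)) := by
    rw [h]
    push_cast
    ring
  rw [h1, ee_add, ee_add, ee_int]
  ring

lemma wm_rnd {q r w : ℕ} {a b δ : ℝ} {z : ℤ} (f : ℕ → ℝ) (hf : ∀ t, |f t| ≤ 1) (hq : 0 < q)
    (hqw : q ≤ 2 ^ w) (h : a = z + b + δ) (h0 : 0 ≤ δ) (h1 : δ ≤ 1 / (10 ^ 4 * 2 ^ w)) :
    ‖wm f w (kB q r a)‖ ≤ ‖wm f w (kB q r b)‖ + 14 / 10 ^ 4 := by
  have h2w : (0 : ℝ) < 2 ^ w := by positivity
  have e1 : wm f w (kB q r a) - wm f w (kB q r b) =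
      (∑ t ∈ range (2 ^ w), (f t : ℂ) * (kB q r b t * (ee (-(δ * t)) - 1))) / 2 ^ w := by
    unfold wm
    rw [← sub_div, ← sum_sub_distrib]
    congr 1
    refine sum_congr rfl fun t _ => ?_
    rw [kB_rnd h t]
    ring
  have e2 : ‖wm f w (kB q r a) - wm f w (kB q r b)‖ ≤ 14 / 10 ^ 4 := by
    rw [e1, norm_div, norm_pow, Complex.norm_ofNat, div_le_iff₀ h2w]
    refine (norm_sum_le _ _).trans ?_
    have e3 : ∀ t ∈ range (2 ^ w), ‖(f t : ℂ) * (kB q r b t * (ee (-(δ * t)) - 1))‖ ≤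
        7 / 10 ^ 4 * ‖kB q r b t‖ := by
      intro t ht
      rw [mem_range] at ht
      rw [norm_mul, norm_mul, Complex.norm_real, Real.norm_eq_abs]
      have e4 := norm_ee_sub_one_le (-(δ * t))
      rw [abs_neg, abs_of_nonneg (by positivity)] at e4
      have ht' : (t : ℝ) ≤ 2 ^ w := by exact_mod_cast ht.le
      have e5 : δ * t ≤ 1 / 10 ^ 4 := by
        calc δ * t ≤ 1 / (10 ^ 4 * 2 ^ w) * 2 ^ w :=
              mul_le_mul h1 ht' (by positivity) (by positivity)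
          _ = 1 / 10 ^ 4 := by field_simp
      have e6 : ‖ee (-(δ * t)) - 1‖ ≤ 7 / 10 ^ 4 := by
        have := Real.pi_lt_d2
        have hp := Real.pi_pos
        have e7 : 2 * Real.pi * (δ * t) ≤ 7 * (1 / 10 ^ 4) :=
          mul_le_mul (by linarith) e5 (by positivity) (by norm_num)
        linarith
      have e8 := norm_nonneg (kB q r b t)
      calc |f t| * (‖kB q r b t‖ * ‖ee (-(δ * t)) - 1‖) ≤ 1 * (‖kB q r b t‖ * (7 / 10 ^ 4)) :=
            mul_le_mul (hf t) (mul_le_mul_of_nonneg_left e6 e8) (by positivity) (by norm_num)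
        _ = 7 / 10 ^ 4 * ‖kB q r b t‖ := by ring
    refine (sum_le_sum e3).trans ?_
    rw [← mul_sum]
    have e9 := sum_rng hq r b (2 ^ w)
    have e10 : (q : ℝ) ≤ 2 ^ w := by exact_mod_cast hqw
    push_cast at e9
    linarith
  have e11 := norm_add_le (wm f w (kB q r a) - wm f w (kB q r b)) (wm f w (kB q r b))
  rw [sub_add_cancel] at e11
  linarith

/-- far frequencies -/
lemma far_rnd {q w : ℕ} {S S' : Fin 4 → ℝ} {C₁ a b δ : ℝ} {z : ℤ}
    (hS : ∀ i, nd (S i - S' i) ≤ 1 / 2 ^ w) (h : a = z + b + δ) (h0 : 0 ≤ δ)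
    (h1 : δ ≤ 1 / 2 ^ w) (hF : Far q w S (C₁ + 3) a) : Far q w S' C₁ b := by
  intro i c
  have h2 := hF i c
  have h3 := nd_tri (b - S' i - (c : ℝ) / q) (b - S i - (c : ℝ) / q) (b - S' i - (c : ℝ) / q)
  have e1 : a - S i - (c : ℝ) / q = (b - S' i - (c : ℝ) / q) + (-(S i - S' i) + δ) + (z : ℤ) := by
    rw [h]
    ring
  have e2 : nd (a - S i - (c : ℝ) / q) ≤
      nd (b - S' i - (c : ℝ) / q) + (nd (S i - S' i) + nd δ) := by
    rw [e1, nd_add_int]
    refine (nd_add_le _ _).trans ?_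
    have := nd_add_le (-(S i - S' i)) δ
    rw [nd_neg] at this
    linarith
  have e3 : nd δ ≤ 1 / 2 ^ w := (nd_le_abs δ).trans (by rw [abs_of_nonneg h0]; exact h1)
  have e4 := hS i
  have e5 : (C₁ + 3) / 2 ^ w = C₁ / 2 ^ w + 3 * (1 / 2 ^ w) := by ring
  have e6 : (0 : ℝ) < 1 / 2 ^ w := by positivity
  linarith

lemma cov_rnd {w : ℕ} {f : ℕ → ℝ} {S S' : Fin 4 → ℝ} {C₀ : ℝ}
    (hS : ∀ i, nd (S i - S' i) ≤ 1 / 2 ^ w) (hC : Cov f w S C₀) : Cov f w S' (C₀ + 1) := by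
  intro a ha
  obtain ⟨i, hi⟩ := hC a ha
  refine ⟨i, ?_⟩
  have h1 := nd_tri a (S i) (S' i)
  have h2 := nd_tri (a - S' i) (a - S i) (a - S' i)
  have e1 : a - S' i = (a - S i) + (S i - S' i) := by ring
  have e2 := nd_add_le (a - S i) (S i - S' i)
  rw [← e1] at e2
  have e3 := hS i
  have e4 : (C₀ + 1) / 2 ^ w = C₀ / 2 ^ w + 1 / 2 ^ w := by ring
  linarith

/-- the tail of the sample -/
lemma tail_smp (hT : T_HFT) {R D w m q r : ℕ} (f : ℕ → ℝ) (hf : ∀ t, |f t| ≤ 1) (β δ : ℝ)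
    (hRD : R * D = 2 ^ w) (hR : 0 < R) (hD : 0 < D) (hq : q ∈ oct m) (hδ : 0 < δ) :
    avE R D (fun e => Pool.Agent.H93.EB.ind (δ ≤ ‖smp f m (kB q r β) e R -
      (∑ t ∈ range (2 ^ w + 2 ^ m), ((f t * wt m (R * D) t : ℝ) : ℂ) * kB q r β t) / 2 ^ w‖)) ≤
      4 * Real.exp (-(δ ^ 2 * R / 64)) := by
  obtain ⟨hq1, hq2, hq3⟩ := mem_oct hq
  obtain ⟨y, hy⟩ : ∃ y : Fin R → Fin D → ℂ, y = fun (a : Fin R) (i : Fin D) =>
      (∑ s ∈ range (2 ^ m), (f ((a : ℕ) * D + i + s) : ℂ) * kB q r β ((a : ℕ) * D + i + s)) /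
        2 ^ m := ⟨_, rfl⟩
  have h1 : ∀ e : Fin R → Fin D, smp f m (kB q r β) e R = (∑ a, y a (e a)) / R := by
    intro e
    unfold smp
    rw [hy]
    congr 1
    refine sum_congr rfl fun a _ => ?_
    rw [if_pos a.2]
    rfl
  have h2 := Pool.Agent.H95.ES.mea_gen R D w m R f (kB q r β) hRD hR hD (le_refl R)
  have hD0 : (D : ℂ) ≠ 0 := by exact_mod_cast hD.ne'
  have h3 : (∑ e : Fin R → Fin D, smp f m (kB q r β) e R) / ((D : ℂ)) ^ R =
      (∑ a, (∑ i, y a i) / D) / R := by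
    rw [sum_congr rfl fun e _ => h1 e, ← sum_div, sum_comm]
    rw [sum_congr rfl fun a _ => Pool.Agent.H95.ES.sum_pi a (fun i => y a i), ← mul_sum,
      ← sum_div]
    have hpow : (D : ℂ) ^ R = (D : ℂ) ^ (R - 1) * D := by
      rw [← pow_succ, Nat.sub_add_cancel hR]
    rw [hpow]
    have hP : (D : ℂ) ^ (R - 1) ≠ 0 := pow_ne_zero _ hD0
    have hR0 : (R : ℂ) ≠ 0 := by exact_mod_cast hR.ne'
    field_simp
  have h4 : ∀ a i, ‖y a i‖ ≤ 2 := by
    intro a i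
    rw [hy]
    dsimp only
    rw [norm_div, norm_pow, Complex.norm_ofNat, div_le_iff₀ (by positivity)]
    refine (norm_sum_le _ _).trans ?_
    have h5 : ∀ s ∈ range (2 ^ m), ‖(f ((a : ℕ) * D + i + s) : ℂ) *
        kB q r β ((a : ℕ) * D + i + s)‖ ≤ ‖kB q r β ((a : ℕ) * D + i + s)‖ := by
      intro s _
      rw [norm_mul, Complex.norm_real, Real.norm_eq_abs]
      have := hf ((a : ℕ) * D + i + s)
      exact mul_le_of_le_one_left (norm_nonneg _) this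
    refine (sum_le_sum h5).trans ?_
    have h6 := sum_short (r := r) (a := (a : ℕ) * D + i) hq1.le β
    rw [sum_Ico_eq_sum_range, Nat.add_sub_cancel_left] at h6
    refine h6.trans ?_
    have h7 : (q : ℝ) ≤ ((2 ^ (m + 1) : ℕ) : ℝ) := by exact_mod_cast hq2
    push_cast at h7
    rw [pow_succ] at h7
    linarith
  have h8 := hT R D y δ hD hδ h4
  rw [← h3, h2] at h8
  rw [show (fun e : Fin R → Fin D => Pool.Agent.H93.EB.ind (δ ≤ ‖smp f m (kB q r β) e R -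
      (∑ t ∈ range (2 ^ w + 2 ^ m), ((f t * wt m (R * D) t : ℝ) : ℂ) * kB q r β t) / 2 ^ w‖)) =
      fun e => Pool.Agent.H93.EB.ind (δ ≤ ‖(∑ a, y a (e a)) / (R : ℂ) -
      (∑ t ∈ range (2 ^ w + 2 ^ m), ((f t * wt m (R * D) t : ℝ) : ℂ) * kB q r β t) / 2 ^ w‖) from
      funext fun e => by rw [h1 e]]
  exact h8

/-- the mean of the samples is nearly the mean over the window -/
lemma mean_wm {R D w m q r : ℕ} (f : ℕ → ℝ) (hf : ∀ t, |f t| ≤ 1) (β : ℝ)
    (hRD : R * D = 2 ^ w) (hq : q ∈ oct m) (hmw : m ≤ w) :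
    ‖(∑ t ∈ range (2 ^ w + 2 ^ m), ((f t * wt m (R * D) t : ℝ) : ℂ) * kB q r β t) / 2 ^ w -
      wm f w (kB q r β)‖ ≤ 6 * 2 ^ m / 2 ^ w := by
  obtain ⟨hq1, hq2, hq3⟩ := mem_oct hq
  have h2w : (0 : ℝ) < 2 ^ w := by positivity
  have h2m : (0 : ℝ) < 2 ^ m := by positivity
  have hmw' : 2 ^ m ≤ 2 ^ w := Nat.pow_le_pow_right (by norm_num) hmw
  have hwt : ∀ t, 0 ≤ wt m (R * D) t ∧ wt m (R * D) t ≤ 1 := by
    intro t
    unfold wt
    refine ⟨by positivity, ?_⟩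
    rw [div_le_one h2m]
    have h1 : ((range (R * D)).filter (fun p => p ≤ t ∧ t < p + 2 ^ m)).card ≤ 2 ^ m := by
      calc ((range (R * D)).filter (fun p => p ≤ t ∧ t < p + 2 ^ m)).card ≤
            (Ico (t + 1 - 2 ^ m) (t + 1)).card := by
            refine card_le_card fun p hp => ?_
            rw [mem_filter, mem_range] at hp
            rw [mem_Ico]
            omega
        _ ≤ 2 ^ m := by rw [Nat.card_Ico]; omega
    exact_mod_cast h1
  have hwt1 : ∀ t, 2 ^ m ≤ t → t < 2 ^ w → wt m (R * D) t = 1 := by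
    intro t h1 h2
    unfold wt
    rw [div_eq_one_iff_eq h2m.ne']
    have h3 : (range (R * D)).filter (fun p => p ≤ t ∧ t < p + 2 ^ m) =
        Ico (t + 1 - 2 ^ m) (t + 1) := by
      ext p
      rw [mem_filter, mem_range, mem_Ico, hRD]
      omega
    rw [h3, Nat.card_Ico]
    have h4 : t + 1 - (t + 1 - 2 ^ m) = 2 ^ m := by omega
    rw [h4]
    push_cast
    rfl
  have e1 : (∑ t ∈ range (2 ^ w + 2 ^ m), ((f t * wt m (R * D) t : ℝ) : ℂ) * kB q r β t) =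
      ∑ t ∈ range (2 ^ w), ((f t * wt m (R * D) t : ℝ) : ℂ) * kB q r β t +
      ∑ t ∈ Ico (2 ^ w) (2 ^ w + 2 ^ m), ((f t * wt m (R * D) t : ℝ) : ℂ) * kB q r β t := by
    rw [range_eq_Ico, ← sum_Ico_consecutive _ (Nat.zero_le (2 ^ w))
      (show 2 ^ w ≤ 2 ^ w + 2 ^ m by omega), range_eq_Ico]
  have e2 : (∑ t ∈ range (2 ^ w + 2 ^ m), ((f t * wt m (R * D) t : ℝ) : ℂ) * kB q r β t) / 2 ^ w -
      wm f w (kB q r β) =
      (∑ t ∈ Ico 0 (2 ^ m), ((f t * (wt m (R * D) t - 1) : ℝ) : ℂ) * kB q r β t +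
      ∑ t ∈ Ico (2 ^ w) (2 ^ w + 2 ^ m), ((f t * wt m (R * D) t : ℝ) : ℂ) * kB q r β t) /
        2 ^ w := by
    unfold wm
    rw [e1, ← sub_div]
    congr 1
    have e3 : ∑ t ∈ range (2 ^ w), ((f t * wt m (R * D) t : ℝ) : ℂ) * kB q r β t -
        ∑ t ∈ range (2 ^ w), (f t : ℂ) * kB q r β t =
        ∑ t ∈ range (2 ^ w), ((f t * (wt m (R * D) t - 1) : ℝ) : ℂ) * kB q r β t := by
      rw [← sum_sub_distrib]
      refine sum_congr rfl fun t _ => ?_
      push_cast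
      ring
    have e4 : ∑ t ∈ range (2 ^ w), ((f t * (wt m (R * D) t - 1) : ℝ) : ℂ) * kB q r β t =
        ∑ t ∈ Ico 0 (2 ^ m), ((f t * (wt m (R * D) t - 1) : ℝ) : ℂ) * kB q r β t := by
      rw [range_eq_Ico, ← sum_Ico_consecutive _ (Nat.zero_le (2 ^ m)) hmw']
      have e5 : ∑ t ∈ Ico (2 ^ m) (2 ^ w), ((f t * (wt m (R * D) t - 1) : ℝ) : ℂ) *
          kB q r β t = 0 := by
        refine sum_eq_zero fun t ht => ?_
        rw [mem_Ico] at ht
        rw [hwt1 t ht.1 ht.2]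
        simp
      rw [e5, add_zero]
    rw [← e4, ← e3]
    ring
  rw [e2, norm_div, norm_pow, Complex.norm_ofNat]
  refine div_le_div_of_nonneg_right ?_ h2w.le
  have h7 : (q : ℝ) ≤ ((2 ^ (m + 1) : ℕ) : ℝ) := by exact_mod_cast hq2
  push_cast at h7
  rw [pow_succ] at h7
  have s1 : ‖∑ t ∈ Ico 0 (2 ^ m), ((f t * (wt m (R * D) t - 1) : ℝ) : ℂ) * kB q r β t‖ ≤ q := by
    have h8 := sum_short (r := r) (a := 0) hq1.le β
    rw [zero_add] at h8
    refine (norm_sum_le _ _).trans ((sum_le_sum fun t _ => ?_).trans h8)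
    rw [norm_mul, Complex.norm_real, Real.norm_eq_abs, abs_mul]
    have h9 : |wt m (R * D) t - 1| ≤ 1 := by
      rw [abs_le]
      have := hwt t
      constructor <;> linarith
    have h10 : |f t| * |wt m (R * D) t - 1| ≤ 1 :=
      mul_le_one₀ (hf t) (abs_nonneg _) h9
    exact mul_le_of_le_one_left (norm_nonneg _) h10
  have s2 : ‖∑ t ∈ Ico (2 ^ w) (2 ^ w + 2 ^ m), ((f t * wt m (R * D) t : ℝ) : ℂ) *
      kB q r β t‖ ≤ q := by
    have h8 := sum_short (r := r) (a := 2 ^ w) hq1.le β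
    refine (norm_sum_le _ _).trans ((sum_le_sum fun t _ => ?_).trans h8)
    rw [norm_mul, Complex.norm_real, Real.norm_eq_abs, abs_mul]
    have h9 : |wt m (R * D) t| ≤ 1 := by
      rw [abs_le]
      have := hwt t
      constructor <;> linarith
    have h10 : |f t| * |wt m (R * D) t| ≤ 1 :=
      mul_le_one₀ (hf t) (abs_nonneg _) h9
    exact mul_le_of_le_one_left (norm_nonneg _) h10
  have s3 := norm_add_le (∑ t ∈ Ico 0 (2 ^ m), ((f t * (wt m (R * D) t - 1) : ℝ) : ℂ) *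
    kB q r β t) (∑ t ∈ Ico (2 ^ w) (2 ^ w + 2 ^ m), ((f t * wt m (R * D) t : ℝ) : ℂ) *
      kB q r β t)
  linarith

end Pool.Agent.H81.ES
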